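import Pool.Agent.H6.LD.Stm

set_option autoImplicit false
open Filter Topology MeasureTheory

namespace Pool.Agent.H35.LD

open Pool.Agent.H6.LD

/-- Part HME. -/
theorem t_HME : S_HME := by
  intro f g t0 hf hg hfb hgb hfg m hm
  obtain ⟨C, hC⟩ := hfb
  obtain ⟨D, hD⟩ := hgb
  have hfi : ∀ a b : ℝ, IntervalIntegrable f volume a b := fun a b =>
    (intervalIntegrable_const (c := C)).mono_fun hf.aestronglyMeasurable
      (Eventually.of_forall fun t => by
        simpa using (hC t).trans (le_abs_self C))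
  have hgi : ∀ a b : ℝ, IntervalIntegrable g volume a b := fun a b =>
    (intervalIntegrable_const (c := D)).mono_fun hg.aestronglyMeasurable
      (Eventually.of_forall fun t => by
        simpa using (hD t).trans (le_abs_self D))
  -- the difference of the integrals is eventually constant
  set K : ℂ := ∫ t in (0 : ℝ)..t0, (g t - f t) with hK
  have hint : ∀ T : ℝ, t0 ≤ T → ∫ t in (0 : ℝ)..T, g t = (∫ t in (0 : ℝ)..T, f t) + K := by
    intro T hT
    have h1 : ∫ t in (0 : ℝ)..T, g t = (∫ t in (0 : ℝ)..t0, g t) + ∫ t in t0..T, g t :=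
      (intervalIntegral.integral_add_adjacent_intervals (hgi _ _) (hgi _ _)).symm
    have h2 : ∫ t in (0 : ℝ)..T, f t = (∫ t in (0 : ℝ)..t0, f t) + ∫ t in t0..T, f t :=
      (intervalIntegral.integral_add_adjacent_intervals (hfi _ _) (hfi _ _)).symm
    have h3 : ∫ t in t0..T, g t = ∫ t in t0..T, f t := by
      refine intervalIntegral.integral_congr fun t ht => ?_
      rw [Set.uIcc_of_le hT] at ht
      exact (hfg t ht.1).symm
    rw [h1, h2, h3, hK, intervalIntegral.integral_sub (hgi _ _) (hfi _ _)]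
    ring
  have hlim : Tendsto (fun T : ℝ => ((1 / T : ℝ) : ℂ) * K) atTop (𝓝 0) := by
    have h1 : Tendsto (fun T : ℝ => (1 / T : ℝ)) atTop (𝓝 0) := by
      simpa [one_div] using tendsto_inv_atTop_zero (𝕜 := ℝ)
    have h2 : Tendsto (fun T : ℝ => ((1 / T : ℝ) : ℂ)) atTop (𝓝 ((0 : ℝ) : ℂ)) :=
      (Complex.continuous_ofReal.tendsto _).comp h1
    have h3 := h2.mul_const K
    simpa using h3
  have h4 := hm.add hlim
  rw [add_zero] at h4
  refine h4.congr' ?_
  filter_upwards [eventually_ge_atTop t0] with T hT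
  rw [hint T hT]
  ring

end Pool.Agent.H35.LD
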