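import Pool.Agent.H6.LD.Stm

set_option autoImplicit false
open Filter Topology MeasureTheory

namespace Pool.Agent.H35.LD

open Pool.Agent.H6.LD

/-- Part WIN. -/
theorem t_WIN : S_WIN := by
  intro p hp t ht
  have hp1 : (1 : ℝ) < p := by exact_mod_cast hp.one_lt
  have hp0 : (0 : ℝ) < p := by linarith
  have hL : 0 < Real.log p := Real.log_pos hp1
  have ht0 : 0 < t := lt_of_lt_of_le hL ht
  set c : ℤ := ⌊t / Real.log p⌋ with hc
  have hc1 : 1 ≤ c := by
    rw [hc, Int.le_floor]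
    push_cast
    rw [le_div_iff₀ hL, one_mul]
    exact ht
  obtain ⟨m, hm⟩ : ∃ m : ℕ, c = m := ⟨c.toNat, by omega⟩
  have hm1 : 1 ≤ m := by omega
  have hfl : (m : ℝ) ≤ t / Real.log p := by
    have := Int.floor_le (t / Real.log p)
    rw [← hc, hm] at this
    exact_mod_cast this
  have hfu : t / Real.log p < (m : ℝ) + 1 := by
    have := Int.lt_floor_add_one (t / Real.log p)
    rw [← hc, hm] at this
    exact_mod_cast this
  have hfr : Int.fract (t / Real.log p) = t / Real.log p - m := by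
    rw [Int.fract, ← hc, hm]
    simp
  have h1 : (m : ℝ) * Real.log p ≤ t := by
    rwa [le_div_iff₀ hL] at hfl
  have h2 : t < ((m : ℝ) + 1) * Real.log p := by
    rwa [div_lt_iff₀ hL] at hfu
  -- powers
  have hexp : ∀ j : ℕ, Real.exp ((j : ℝ) * Real.log p) = (p : ℝ) ^ j := by
    intro j
    rw [mul_comm, Real.exp_mul, Real.exp_log hp0, Real.rpow_natCast]
  have h3 : (p : ℝ) ^ m ≤ Real.exp t := by
    rw [← hexp m]
    exact Real.exp_le_exp.2 h1
  have h4 : Real.exp t < (p : ℝ) ^ (m + 1) := by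
    rw [← hexp (m + 1)]
    push_cast
    exact Real.exp_lt_exp.2 h2
  have h5 : p ^ m ≤ ⌊Real.exp t⌋₊ := Nat.le_floor (by exact_mod_cast h3)
  have h6 : ⌊Real.exp t⌋₊ < p ^ (m + 1) := (Nat.floor_lt (Real.exp_pos t).le).2 (by exact_mod_cast h4)
  -- the window of `m`
  have hwin : (⌊Real.exp t⌋₊ < p ^ m + p ^ (m - 1)) ↔
      Int.fract (t / Real.log p) < aa p := by
    rw [Nat.floor_lt (Real.exp_pos t).le, hfr, aa]
    have e1 : ((p ^ m + p ^ (m - 1) : ℕ) : ℝ) = (p : ℝ) ^ (m - 1) * ((p + 1 : ℕ) : ℝ) := by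
      obtain ⟨m', rfl⟩ : ∃ m', m = m' + 1 := ⟨m - 1, by omega⟩
      push_cast
      ring
    have hp1' : (0 : ℝ) < ((p + 1 : ℕ) : ℝ) := by positivity
    have e2 : ((p ^ m + p ^ (m - 1) : ℕ) : ℝ) =
        Real.exp (((m : ℝ) - 1) * Real.log p + Real.log ((p + 1 : ℕ) : ℝ)) := by
      rw [e1, Real.exp_add, Real.exp_log hp1']
      congr 1
      rw [← hexp (m - 1), Nat.cast_sub hm1, Nat.cast_one]
    have e3 : (t / Real.log p - m) * Real.log p = t - m * Real.log p := by
      rw [sub_mul, div_mul_cancel₀ _ hL.ne']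
    rw [e2, Real.exp_lt_exp, lt_div_iff₀ hL, e3]
    constructor
    · intro h
      linarith
    · intro h
      linarith
  rw [← hwin]
  constructor
  · rintro ⟨j, hj1, hj2, hj3⟩
    have hjm : j ≤ m := by
      by_contra h
      have : p ^ (m + 1) ≤ p ^ j := Nat.pow_le_pow_right hp.pos (by omega)
      omega
    have hmj : m ≤ j := by
      by_contra h
      have h7 : p ^ (j + 1) ≤ p ^ m := Nat.pow_le_pow_right hp.pos (by omega)
      have h8 : p ^ j + p ^ (j - 1) ≤ p ^ (j + 1) := by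
        have h9 : p ^ (j - 1) ≤ p ^ j := Nat.pow_le_pow_right hp.pos (by omega)
        have h10 : 2 * p ^ j ≤ p * p ^ j := Nat.mul_le_mul_right _ hp.two_le
        rw [pow_succ, mul_comm (p ^ j) p]
        omega
      omega
    have : j = m := le_antisymm hjm hmj
    rw [this] at hj3
    exact hj3
  · intro h
    exact ⟨m, hm1, h5, h⟩

end Pool.Agent.H35.LD
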